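import Pool.Agent.Lib.MP_32323c_lc.Final

/-!
# MP_32323c_lc: BPA* with the empty process has no finite equational basis
-/

open Pool.Agent.Lib.MP_32323c_lc in
/-- For every nonempty set `A` of actions, bisimilarity over BPA* extended with the empty process
is not finitely based: no finite set of sound equations (variables allowed) proves every valid
equation between closed terms. -/
theorem Pool.Agent.Results.MP_32323c_lc.NotFinitelyBased.result (A : Type) [Nonempty A] :
    ¬ FinitelyBased A :=
  not_finitelyBased
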